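import Pool.Agent.Helper69.GE.Defs

/-!
# GB-04 Colour: the scales and directions of one run

A run `v 0, …, v N` with `‖v 0‖ ≤ 1`, `‖v i‖ ≤ C ‖v (i + 1)‖`, `‖v (i + 1)‖ ≤ ‖v i‖ / 2` has scales
`n_i`, `2 ^ (-(n_i + 1)) < ‖v i‖ ≤ 2 ^ (-n_i)`, which form a block of gap `C + 1` and length `N`. The
scales are coloured by the directions up to `ε`.
-/

set_option autoImplicit false

namespace Pool.Agent.Helper71.GB

open Pool.Agent.Helper69.GE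

/-- the scales of one run form a block -/
private theorem run_block {C₀ N : ℕ} {sc : ℕ → ℕ} (hC₀ : 1 ≤ C₀)
    (h1 : ∀ i < N, sc i + 1 ≤ sc (i + 1) ∧ sc (i + 1) < sc i + C₀) (n : ℕ) (hn : sc 0 ≤ n)
    (hn' : n + C₀ ≤ sc 0 + N) : ∃ i ≤ N, n ≤ sc i ∧ sc i < n + C₀ := by
  have key : ∀ i ≤ N, n ≤ sc i → ∃ j ≤ i, n ≤ sc j ∧ sc j < n + C₀ := by
    intro i
    induction i with
    | zero =>
      intro _ h2
      exact ⟨0, le_rfl, h2, by omega⟩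
    | succ i ih =>
      intro hi h2
      by_cases h3 : n ≤ sc i
      · obtain ⟨j, hj, h4⟩ := ih (by omega) h3
        exact ⟨j, by omega, h4⟩
      · have h4 := (h1 i (by omega)).2
        exact ⟨i + 1, le_rfl, h2, by omega⟩
  have grow : ∀ i ≤ N, sc 0 + i ≤ sc i := by
    intro i
    induction i with
    | zero => intro _; exact le_rfl
    | succ i ih =>
      intro hi
      have h2 := ih (by omega)
      have h3 := (h1 i (by omega)).1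
      omega
  have h2 := grow N le_rfl
  exact key N le_rfl (by omega)

theorem run_colour {d : ℕ} {E : Set (Fin d → ℝ)} {p : Fin d → ℝ} {v : ℕ → Fin d → ℝ} {C N : ℕ}
    (hv0 : ‖v 0‖ ≤ 1)
    (hv : ∀ i ≤ N, v i ≠ 0 ∧ p + v i ∈ E ∧
      (i < N → ‖v i‖ ≤ C * ‖v (i + 1)‖ ∧ ‖v (i + 1)‖ ≤ ‖v i‖ / 2)) {ε : ℝ} (hε : 0 < ε) :
    ∃ (T : (Fin d → Fin (⌊2 / ε⌋₊ + 1)) → Set ℕ) (u : ℕ → Fin d → ℝ) (k : ℕ),
      Block {n | ∃ a, n ∈ T a} (C + 1) k N ∧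
      (∀ a, ∀ n ∈ T a, p + u n ∈ E ∧ (1 / 2 : ℝ) ^ (n + 1) < ‖u n‖ ∧ ‖u n‖ ≤ (1 / 2 : ℝ) ^ n) ∧
      ∀ a, ∀ n ∈ T a, ∀ n' ∈ T a, ‖(‖u n‖⁻¹) • u n - (‖u n'‖⁻¹) • u n'‖ ≤ ε := by
  classical
  have hhalf : (0 : ℝ) < 1 / 2 := by norm_num
  have hhalf1 : (1 / 2 : ℝ) < 1 := by norm_num
  have hle : ∀ i ≤ N, ‖v i‖ ≤ 1 := by
    intro i
    induction i with
    | zero => intro _; exact hv0
    | succ i ih =>
      intro hi
      have h1 := ih (by omega)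
      have h2 := ((hv i (by omega)).2.2 (by omega)).2
      have h3 := norm_nonneg (v i)
      linarith
  have hsc : ∀ i, ∃ n : ℕ, i ≤ N → (1 / 2 : ℝ) ^ (n + 1) < ‖v i‖ ∧ ‖v i‖ ≤ (1 / 2 : ℝ) ^ n := by
    intro i
    by_cases hi : i ≤ N
    · obtain ⟨n, hn⟩ := exists_nat_pow_near_of_lt_one (norm_pos_iff.mpr (hv i hi).1) (hle i hi)
        hhalf hhalf1
      exact ⟨n, fun _ => hn⟩
    · exact ⟨0, fun h => absurd h hi⟩
  choose sc hsc using hsc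
  have hCpow : (C : ℝ) < 2 ^ C := by exact_mod_cast Nat.lt_two_pow_self
  have hstep : ∀ i < N, sc i + 1 ≤ sc (i + 1) ∧ sc (i + 1) < sc i + (C + 1) := by
    intro i hi
    obtain ⟨a1, a2⟩ := hsc i hi.le
    obtain ⟨b1, b2⟩ := hsc (i + 1) hi
    obtain ⟨c1, c2⟩ := (hv i hi.le).2.2 hi
    constructor
    · have h1 : (1 / 2 : ℝ) ^ (sc (i + 1) + 1) < (1 / 2 : ℝ) ^ (sc i + 1) := by
        calc (1 / 2 : ℝ) ^ (sc (i + 1) + 1) < ‖v (i + 1)‖ := b1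
          _ ≤ ‖v i‖ / 2 := c2
          _ ≤ (1 / 2 : ℝ) ^ (sc i) / 2 := div_le_div_of_nonneg_right a2 (by norm_num)
          _ = (1 / 2 : ℝ) ^ (sc i + 1) := by
              rw [pow_succ]
              ring
      have h2 := (pow_lt_pow_iff_right_of_lt_one₀ hhalf hhalf1).mp h1
      omega
    · have h1 : (1 / 2 : ℝ) ^ (sc i + (C + 1)) < (1 / 2 : ℝ) ^ (sc (i + 1)) := by
        have hv1 : 0 < ‖v (i + 1)‖ := lt_trans (by positivity) b1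
        calc (1 / 2 : ℝ) ^ (sc i + (C + 1)) = (1 / 2 : ℝ) ^ C * (1 / 2 : ℝ) ^ (sc i + 1) := by
              rw [← pow_add]
              congr 1
              ring
          _ < (1 / 2 : ℝ) ^ C * ‖v i‖ := mul_lt_mul_of_pos_left a1 (by positivity)
          _ ≤ (1 / 2 : ℝ) ^ C * (C * ‖v (i + 1)‖) :=
              mul_le_mul_of_nonneg_left c1 (by positivity)
          _ ≤ (1 / 2 : ℝ) ^ C * (2 ^ C * ‖v (i + 1)‖) :=
              mul_le_mul_of_nonneg_left (mul_le_mul_of_nonneg_right hCpow.le hv1.le)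
                (by positivity)
          _ = ‖v (i + 1)‖ := by
              rw [← mul_assoc, ← mul_pow]
              norm_num
          _ ≤ (1 / 2 : ℝ) ^ (sc (i + 1)) := b2
      exact (pow_lt_pow_iff_right_of_lt_one₀ hhalf hhalf1).mp h1
  have hu : ∀ n, ∃ i : ℕ, (∃ i ≤ N, (1 / 2 : ℝ) ^ (n + 1) < ‖v i‖ ∧ ‖v i‖ ≤ (1 / 2 : ℝ) ^ n) →
      i ≤ N ∧ (1 / 2 : ℝ) ^ (n + 1) < ‖v i‖ ∧ ‖v i‖ ≤ (1 / 2 : ℝ) ^ n := by
    intro n
    by_cases hex : ∃ i ≤ N, (1 / 2 : ℝ) ^ (n + 1) < ‖v i‖ ∧ ‖v i‖ ≤ (1 / 2 : ℝ) ^ n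
    · obtain ⟨i, hi⟩ := hex
      exact ⟨i, fun _ => hi⟩
    · exact ⟨0, fun h => absurd h hex⟩
  choose ix hix using hu
  obtain ⟨S, hSm⟩ : ∃ S : Set ℕ, ∀ n, n ∈ S ↔ ∃ i ≤ N, (1 / 2 : ℝ) ^ (n + 1) < ‖v i‖ ∧
      ‖v i‖ ≤ (1 / 2 : ℝ) ^ n := ⟨{n | _}, fun _ => Iff.rfl⟩
  obtain ⟨dir, hdir⟩ : ∃ dir : ℕ → Fin d → ℝ, ∀ n, dir n = ‖v (ix n)‖⁻¹ • v (ix n) :=
    ⟨fun n => ‖v (ix n)‖⁻¹ • v (ix n), fun _ => rfl⟩
  have hdn : ∀ n ∈ S, ‖dir n‖ = 1 := by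
    intro n hn
    obtain ⟨h1, h2, -⟩ := hix n ((hSm n).mp hn)
    have h3 : 0 < ‖v (ix n)‖ := lt_trans (by positivity) h2
    rw [hdir, norm_smul, norm_inv, norm_norm, inv_mul_cancel₀ h3.ne']
  have hdl : ∀ n ∈ S, ∀ l, -1 ≤ dir n l ∧ dir n l ≤ 1 := by
    intro n hn l
    have h1 := norm_le_pi_norm (dir n) l
    rw [hdn n hn, Real.norm_eq_abs, abs_le] at h1
    exact h1
  have hTm : ∀ (a : Fin d → Fin (⌊2 / ε⌋₊ + 1)) (n : ℕ),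
      n ∈ {n | n ∈ S ∧ ∀ l, ⌊(dir n l + 1) / ε⌋₊ = (a l : ℕ)} ↔
      n ∈ S ∧ ∀ l, ⌊(dir n l + 1) / ε⌋₊ = (a l : ℕ) := fun _ _ => Iff.rfl
  refine ⟨fun a => {n | n ∈ S ∧ ∀ l, ⌊(dir n l + 1) / ε⌋₊ = (a l : ℕ)}, fun n => v (ix n), sc 0,
    ?_, ?_, ?_⟩
  · intro n h1 h2
    obtain ⟨i, hi, h3, h4⟩ := run_block (by omega) hstep n h1 h2
    have h5 : sc i ∈ S := (hSm _).mpr ⟨i, hi, hsc i hi⟩
    have h6 : ∀ l, ⌊(dir (sc i) l + 1) / ε⌋₊ < ⌊2 / ε⌋₊ + 1 := by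
      intro l
      rw [Nat.lt_succ_iff]
      refine Nat.floor_le_floor ?_
      refine div_le_div_of_nonneg_right ?_ hε.le
      have := (hdl _ h5 l).2
      linarith
    exact ⟨sc i, ⟨fun l => ⟨⌊(dir (sc i) l + 1) / ε⌋₊, h6 l⟩, h5, fun l => rfl⟩, h3, h4⟩
  · intro a n hn
    obtain ⟨h1, h2, h3⟩ := hix n ((hSm n).mp hn.1)
    exact ⟨(hv _ h1).2.1, h2, h3⟩
  · intro a n hn n' hn'
    obtain ⟨h1, e1⟩ := hn
    obtain ⟨h1', e2⟩ := hn'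
    rw [← hdir n, ← hdir n', pi_norm_le_iff_of_nonneg hε.le]
    intro l
    rw [Pi.sub_apply, Real.norm_eq_abs]
    have e1 := e1 l
    have e2 := e2 l
    have p1 : 0 ≤ (dir n l + 1) / ε := by
      have := (hdl n h1 l).1
      exact div_nonneg (by linarith) hε.le
    have p2 : 0 ≤ (dir n' l + 1) / ε := by
      have := (hdl n' h1' l).1
      exact div_nonneg (by linarith) hε.le
    have q1 := Nat.floor_le p1
    have q2 := Nat.lt_floor_add_one ((dir n l + 1) / ε)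
    have q3 := Nat.floor_le p2
    have q4 := Nat.lt_floor_add_one ((dir n' l + 1) / ε)
    rw [e1] at q1 q2
    rw [e2] at q3 q4
    rw [le_div_iff₀ hε] at q1 q3
    rw [div_lt_iff₀ hε] at q2 q4
    rw [abs_le]
    constructor <;> linarith

end Pool.Agent.Helper71.GB
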