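import Pool.Agent.Helper69.GE.AllP
import Pool.Agent.Helper69.GE.Points

/-!
# GB-01 Kill: one length for all bounded data

`PB D C δ R B`: the conclusion of `P D C δ` for the parameter `R` with the length `B`. It is monotone
in all parameters, and `all_p` gives a function `G` with `PB D C (1 / (C + 1)) (C + 1) (G C)` for all
`D ≤ C`.
-/

set_option autoImplicit false

open MeasureTheory Set

namespace Pool.Agent.Helper71.GB

open Pool.Agent.Helper69.GE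

/-- Holes of density `δ` are sufficient for blocks of length `B` and parameters bounded by `R`. -/
def PB (D C : ℕ) (δ R : ℝ) (B : ℕ) : Prop :=
  ∃ m : ℕ, ∀ (S : Set ℕ) (u : ℕ → Fin D → ℝ),
    (∀ n ∈ S, ∀ j, |u n j| ≤ (1 / 2 : ℝ) ^ n) → ∀ k : ℕ, Block S C k B →
      ∃ H : Set ℝ, Per H ∧ Cell m H ∧ volume (H ∩ Ico 0 1) ≤ ENNReal.ofReal δ ∧
        Kills S u R k B H ((1 / 2 : ℝ) ^ m)

theorem exists_PB (D C : ℕ) {δ R : ℝ} (hδ : 0 < δ) (hR : 1 ≤ R) : ∃ B, PB D C δ R B := by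
  obtain ⟨m, B, h⟩ := all_p D C δ hδ R hR
  exact ⟨B, m, h⟩

theorem adm_mono {D : ℕ} {S : Set ℕ} {u : ℕ → Fin D → ℝ} {R R' : ℝ} {r : Fin D → ℝ}
    (h0 : 0 < R') (h : R' ≤ R) (hr : Adm S u R' r) : Adm S u R r := by
  obtain ⟨ρ, h1, h2, h3⟩ := hr.cmp
  exact ⟨fun j => (hr.bd j).trans h, ρ, (inv_anti₀ h0 h).trans h1, h2.trans h, h3⟩

theorem PB.mono {D C : ℕ} {δ δ' R R' : ℝ} {B B' : ℕ} (h : PB D C δ R B) (hδ : δ ≤ δ')
    (h0 : 0 < R') (hR : R' ≤ R) (hB : B ≤ B') : PB D C δ' R' B' := by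
  obtain ⟨m, h⟩ := h
  refine ⟨m, fun S u hu k hb => ?_⟩
  obtain ⟨H, h1, h2, h3, h4⟩ := h S u hu k (block_sub hb le_rfl (by omega))
  refine ⟨H, h1, h2, h3.trans (ENNReal.ofReal_le_ofReal hδ), fun x r hr => ?_⟩
  obtain ⟨n, h5, h6, h7, h8⟩ := h4 x r (adm_mono h0 hR hr)
  exact ⟨n, h5, h6, by omega, h8⟩

theorem exists_G : ∃ G : ℕ → ℕ, ∀ C D : ℕ, D ≤ C →
    PB D C (1 / ((C : ℝ) + 1)) ((C : ℝ) + 1) (G C) := by
  have h : ∀ C D : ℕ, ∃ B, PB D C (1 / ((C : ℝ) + 1)) ((C : ℝ) + 1) B := fun C D =>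
    exists_PB D C (by positivity) (by linarith [Nat.cast_nonneg (α := ℝ) C])
  choose g hg using h
  refine ⟨fun C => (Finset.range (C + 1)).sup (g C), fun C D hD => ?_⟩
  exact (hg C D).mono le_rfl (by positivity) le_rfl
    (Finset.le_sup (f := g C) (Finset.mem_range.2 (by omega)))

end Pool.Agent.Helper71.GB
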