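import Pool.Agent.Helper69.GE.Points

/-!
# GB-02 Part: a monochromatic block of growing gap

For every target function `g` and every number `q` of colours there is a function `g'` such that in
every block of gap `C` and length `g' C`, covered by `q` sets, one of the sets has a block with a gap
`C' ≥ C` and the length `g C'`. Proof by induction on `q`: let `g₁` be the function for `q` sets and
`C₁ = max (g₁ C) C`, `g' C = max (g C₁) C₁`. If the last set has no block with gap `C₁` and length
`g C₁` at the beginning, an interval of length `C₁` contains none of its elements, and there the other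
sets form a block of gap `C` and length `g₁ C`.
-/

set_option autoImplicit false

namespace Pool.Agent.Helper71.GB

open Pool.Agent.Helper69.GE

theorem part (g : ℕ → ℕ) (q : ℕ) : ∃ g' : ℕ → ℕ, ∀ (C k : ℕ) (T : Fin q → Set ℕ),
    Block {n | ∃ a, n ∈ T a} C k (g' C) → ∃ a C' k', C ≤ C' ∧ Block (T a) C' k' (g C') := by
  induction q with
  | zero =>
    refine ⟨fun C => C, fun C k T h => ?_⟩
    obtain ⟨n, ⟨a, -⟩, -⟩ := h k le_rfl le_rfl
    exact a.elim0
  | succ q ih =>
    obtain ⟨g₁, ih⟩ := ih
    refine ⟨fun C => max (g (max (g₁ C) C)) (max (g₁ C) C), fun C k T h => ?_⟩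
    obtain ⟨C₁, hC₁⟩ : ∃ C₁, C₁ = max (g₁ C) C := ⟨_, rfl⟩
    simp only [← hC₁] at h
    have hC1 : g₁ C ≤ C₁ := hC₁ ▸ le_max_left _ _
    have hC2 : C ≤ C₁ := hC₁ ▸ le_max_right _ _
    by_cases hb : Block (T (Fin.last q)) C₁ k (g C₁)
    · exact ⟨Fin.last q, C₁, k, hC2, hb⟩
    · unfold Block at hb
      push Not at hb
      obtain ⟨n, h1, h2, h3⟩ := hb
      have h4 : g C₁ ≤ max (g C₁) C₁ := le_max_left _ _
      obtain ⟨a, C', k', h5, h6⟩ := ih C n (fun a => T a.castSucc) (by
        intro m hm hm'
        obtain ⟨n', ⟨a, ha⟩, h7, h8⟩ := h m (h1.trans hm) (by omega)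
        refine ⟨n', ?_, h7, h8⟩
        rcases Fin.eq_castSucc_or_eq_last a with ⟨b, rfl⟩ | rfl
        · exact ⟨b, ha⟩
        · have := h3 n' ha (hm.trans h7)
          omega)
      exact ⟨a.castSucc, C', k', h5, h6⟩

end Pool.Agent.Helper71.GB
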