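import Pool.Agent.Helper71.GB.Hole
import Pool.Agent.Helper71.GB.Part
import Pool.Agent.Helper71.GB.Colour
import Pool.Agent.Helper69.GE.CompactK

/-!
# GB-05 Main: one universal length function

`main`: the function `F`. For `n` and `δ` let `A = n + 1`, `ε` as in `GE.main`,
`R = 3 A (d + 1)`, `q` the number of colours. A run with a large `C` gives, by `run_colour` and
`part`, a monochromatic block with gap `C' > C` and length `G C'`, to which `exists_G` and `hole1`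
apply.
-/

set_option autoImplicit false

open MeasureTheory Set

namespace Pool.Agent.Helper71.GB

open Pool.Agent.Helper69.GE

/-- For infinitely many `C` the set contains a run of gap `C` and length `F C`. -/
def GrowingRuns {d : ℕ} (F : ℕ → ℕ) (E : Set (Fin d → ℝ)) : Prop :=
  ∀ C₀ : ℕ, ∃ C : ℕ, C₀ ≤ C ∧ ∃ (p : Fin d → ℝ) (v : ℕ → Fin d → ℝ), ∀ i ≤ F C,
    v i ≠ 0 ∧ p + v i ∈ E ∧
      (i < F C → ‖v i‖ ≤ C * ‖v (i + 1)‖ ∧ ‖v (i + 1)‖ ≤ ‖v i‖ / 2)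

theorem main_short : ∃ F : ℕ → ℕ, ∀ (d : ℕ) (E : Set (Fin d → ℝ)),
    (∀ C₀ : ℕ, ∃ C : ℕ, C₀ ≤ C ∧ ∃ (p : Fin d → ℝ) (v : ℕ → Fin d → ℝ), ‖v 0‖ ≤ 1 ∧ ∀ i ≤ F C,
      v i ≠ 0 ∧ p + v i ∈ E ∧
        (i < F C → ‖v i‖ ≤ C * ‖v (i + 1)‖ ∧ ‖v (i + 1)‖ ≤ ‖v i‖ / 2)) →
    ∀ η : ℝ, 0 < η → ∃ K : Set (Fin d → ℝ), K ⊆ Icc 0 1 ∧ IsCompact K ∧
      volume (Icc (0 : Fin d → ℝ) 1 \ K) ≤ ENNReal.ofReal η ∧
      ∀ (T : (Fin d → ℝ) ≃ₗ[ℝ] (Fin d → ℝ)) (t : Fin d → ℝ), ∃ v ∈ E, t + T v ∉ K := by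
  obtain ⟨G, hG⟩ := exists_G
  choose g hg using part (fun C => max (G C) C)
  refine ⟨fun C => (Finset.range (C + 1)).sup fun q => g q (C + 1), fun d E hE η hη => ?_⟩
  refine compactK (fun n δ hδ => ?_) hη
  set A : ℝ := n + 1 with hAdef
  have hA : 1 ≤ A := by
    have : (0 : ℝ) ≤ n := Nat.cast_nonneg n
    linarith
  have hA0 : 0 < A := by linarith
  set ε : ℝ := 1 / (3 * A * (d * A + 1)) with hεdef
  have hdA : 0 < (d : ℝ) * A + 1 := by positivity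
  have hε : 0 < ε := by positivity
  have hε2 : d * A * ε ≤ 1 / (3 * A) := by
    rw [hεdef, mul_one_div, div_le_div_iff₀ (by positivity) (by positivity)]
    nlinarith [mul_nonneg (Nat.cast_nonneg (α := ℝ) d) hA0.le]
  obtain ⟨q, hq⟩ : ∃ q, q = Fintype.card (Fin d → Fin (⌊2 / ε⌋₊ + 1)) := ⟨_, rfl⟩
  obtain ⟨C, hC, p, v, hv0, hv⟩ :=
    hE (max (max d q) (max ⌈3 * A * (d + 1)⌉₊ ⌈2 / δ⌉₊))
  have hC1 : d ≤ C := ((le_max_left _ _).trans (le_max_left _ _)).trans hC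
  have hC2 : q ≤ C := ((le_max_right _ _).trans (le_max_left _ _)).trans hC
  have hC3 : 3 * A * (d + 1) ≤ C :=
    (Nat.le_ceil _).trans (Nat.cast_le.2 (((le_max_left _ _).trans (le_max_right _ _)).trans hC))
  have hC4 : 2 / δ ≤ C :=
    (Nat.le_ceil _).trans (Nat.cast_le.2 (((le_max_right _ _).trans (le_max_right _ _)).trans hC))
  simp only at hv
  obtain ⟨T, u, k, hb, hT, hdir⟩ := run_colour hv0 hv hε
  have hlen : g q (C + 1) ≤ (Finset.range (C + 1)).sup fun q => g q (C + 1) :=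
    Finset.le_sup (f := fun q => g q (C + 1)) (Finset.mem_range.2 (by omega))
  have e : (Fin d → Fin (⌊2 / ε⌋₊ + 1)) ≃ Fin q := hq ▸ Fintype.equivFin _
  obtain ⟨a, C', k', hCC, hb'⟩ := hg q (C + 1) k (fun a => T (e.symm a)) (by
    intro m hm hm'
    have hm1 : g q (C + 1) ≤ (Finset.range (C + 1)).sup fun q => g q (C + 1) := hlen
    obtain ⟨n', ⟨a, ha⟩, h1, h2⟩ := hb m hm (by omega)
    exact ⟨n', ⟨e a, by simpa using ha⟩, h1, h2⟩)
  obtain ⟨n₀, hn₀, -⟩ := hb' k' le_rfl (by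
    have : C' ≤ max (G C') C' := le_max_right _ _
    omega)
  have hb'' : Block (T (e.symm a)) C' k' (G C') :=
    block_sub hb' le_rfl (by
      have : G C' ≤ max (G C') C' := le_max_left _ _
      omega)
  have hCr : (C : ℝ) ≤ C' := by
    have : C ≤ C' := by omega
    exact_mod_cast this
  have hδ' : 1 / ((C' : ℝ) + 1) ≤ δ / 2 := by
    rw [div_le_div_iff₀ (by positivity) (by norm_num)]
    have h1 : 2 / δ ≤ (C' : ℝ) + 1 := by linarith
    rw [div_le_iff₀ hδ] at h1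
    linarith
  have hd0 : (0 : ℝ) ≤ d := Nat.cast_nonneg d
  have hPB : PB d C' (δ / 2) (3 * A * (d + 1)) (G C') :=
    (hG C' d (by omega)).mono hδ' (by positivity) (by linarith) le_rfl
  have hun : 0 < ‖u n₀‖ := lt_trans (by positivity) (hT _ n₀ hn₀).2.1
  have hw : ‖(‖u n₀‖⁻¹) • u n₀‖ = 1 := by
    rw [norm_smul, norm_inv, norm_norm, inv_mul_cancel₀ hun.ne']
  obtain ⟨U, hUo, hUv, hUk⟩ := hole1 (E := E) (p := p) hδ hPB hw hA hε2 hb''
    (fun m hm => ⟨(hT _ m hm).1, (hT _ m hm).2.1, (hT _ m hm).2.2, hdir _ m hm n₀ hn₀⟩)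
  exact ⟨U, p, (‖u n₀‖⁻¹) • u n₀, hUo, hUv, hw, hUk⟩

/-- The first vector of a run need not be short. -/
theorem main : ∃ F : ℕ → ℕ, ∀ (d : ℕ) (E : Set (Fin d → ℝ)), GrowingRuns F E →
    ∀ η : ℝ, 0 < η → ∃ K : Set (Fin d → ℝ), K ⊆ Icc 0 1 ∧ IsCompact K ∧
      volume (Icc (0 : Fin d → ℝ) 1 \ K) ≤ ENNReal.ofReal η ∧
      ∀ (t : Fin d → ℝ) (T : (Fin d → ℝ) ≃ₗ[ℝ] (Fin d → ℝ)), ∃ v ∈ E, t + T v ∉ K := by
  obtain ⟨F, hF⟩ := main_short
  refine ⟨fun C => F C + 1, fun d E hE η hη => ?_⟩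
  by_cases hb : Bornology.IsBounded E
  · obtain ⟨R, hR0, hR⟩ := hb.exists_pos_norm_le
    have hs : (0 : ℝ) < (4 * R)⁻¹ := by positivity
    obtain ⟨K, hK, hKc, hKv, hKE⟩ := hF d ((fun x => (4 * R)⁻¹ • x) '' E) (by
      intro C₀
      obtain ⟨C, hC, p, v, hv⟩ := hE C₀
      simp only at hv
      refine ⟨C, hC, (4 * R)⁻¹ • p, fun i => (4 * R)⁻¹ • v i, ?_, ?_⟩
      · have h0 := hv 0 (Nat.zero_le _)
        have h1 := hv 1 (by omega)
        have h2 := (h0.2.2 (by omega)).2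
        simp only [zero_add] at h2
        have h3 : ‖v 0 - v 1‖ ≤ 2 * R := by
          have e : v 0 - v 1 = (p + v 0) - (p + v 1) := by abel
          rw [e]
          calc _ ≤ ‖p + v 0‖ + ‖p + v 1‖ := norm_sub_le _ _
            _ ≤ R + R := add_le_add (hR _ h0.2.1) (hR _ h1.2.1)
            _ = 2 * R := by ring
        have h4 : ‖v 0‖ - ‖v 1‖ ≤ ‖v 0 - v 1‖ := norm_sub_norm_le _ _
        have h5 : ‖v 0‖ ≤ 4 * R := by linarith
        show ‖(4 * R)⁻¹ • v 0‖ ≤ 1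
        rw [norm_smul, Real.norm_eq_abs, abs_of_pos hs, inv_mul_le_iff₀ (by positivity)]
        linarith
      · intro i hi
        obtain ⟨a, b, e⟩ := hv i (by omega)
        refine ⟨smul_ne_zero hs.ne' a, ⟨p + v i, b, by simp [smul_add]⟩, fun hiN => ?_⟩
        obtain ⟨e1, e2⟩ := e (by omega)
        simp only [norm_smul, Real.norm_eq_abs, abs_of_pos hs]
        constructor
        · calc (4 * R)⁻¹ * ‖v i‖ ≤ (4 * R)⁻¹ * (C * ‖v (i + 1)‖) :=
                mul_le_mul_of_nonneg_left e1 hs.le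
            _ = C * ((4 * R)⁻¹ * ‖v (i + 1)‖) := by ring
        · calc (4 * R)⁻¹ * ‖v (i + 1)‖ ≤ (4 * R)⁻¹ * (‖v i‖ / 2) :=
                mul_le_mul_of_nonneg_left e2 hs.le
            _ = _ := by ring) η hη
    refine ⟨K, hK, hKc, hKv, fun t T => ?_⟩
    obtain ⟨w, ⟨v, hv, rfl⟩, hw⟩ := hKE
      ((LinearEquiv.smulOfNeZero ℝ (Fin d → ℝ) (4 * R) (by positivity)).trans T) t
    refine ⟨v, hv, ?_⟩
    have hs : 4 * R ≠ 0 := by positivity
    have e : ((LinearEquiv.smulOfNeZero ℝ (Fin d → ℝ) (4 * R) (by positivity)).trans T)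
        ((4 * R)⁻¹ • v) = T v := by
      show T ((4 * R) • (4 * R)⁻¹ • v) = T v
      rw [smul_smul, mul_inv_cancel₀ hs, one_smul]
    rw [← e]
    exact hw
  · refine ⟨Icc 0 1, subset_rfl, isCompact_Icc, by simp, fun t T => ?_⟩
    by_contra hcon
    push Not at hcon
    apply hb
    have h1 : E ⊆ T.symm '' ((fun x => -t + x) '' Icc (0 : Fin d → ℝ) 1) := by
      intro v hv
      exact ⟨T v, ⟨t + T v, hcon v hv, by simp⟩, by simp⟩
    have h2 : IsCompact (T.symm '' ((fun x => -t + x) '' Icc (0 : Fin d → ℝ) 1)) := by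
      refine IsCompact.image (IsCompact.image isCompact_Icc (by fun_prop)) ?_
      exact T.symm.toLinearMap.continuous_of_finiteDimensional
    exact h2.isBounded.subset h1

end Pool.Agent.Helper71.GB
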